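import Pool.Agent.H90.G.S8.H447R3.NumA
import Pool.Agent.H90.G.S8.H447R3.NumDefs
import Pool.Agent.H90.G.S8.H914R2.GBasic

/-!
# Numerically algebraic inverse Lefschetz classes
-/

open CategoryTheory AlgebraicGeometry Finset

universe u v

namespace Pool.Agent.H447

open Pool.Agent.H914 VarClass Obj WeilCohomology

variable {k : Type u} [Field k] {𝒱 : VarClass k} {ops : CycleOps 𝒱}
  {W : WeilCohomology.{u, v} ops} {X Y : 𝒱.Obj}

/-- The class of a correspondence as a linear map. -/
noncomputable def corrLin (W : WeilCohomology.{u, v} ops) (X Y : 𝒱.Obj) :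
    W.H (X.prod Y) →ₗ[W.K] (W.H X →ₗ[W.K] W.H Y) where
  toFun := fun c => W.corr c
  map_add' := corr_add W
  map_smul' := corr_smul W

/-- Every operator is induced by a class. -/
lemma exists_corr (T : W.H X →ₗ[W.K] W.H Y) : ∃ τ, W.corr τ = T := by
  have hinj : Function.Injective (corrLin W X Y) := by
    rw [← LinearMap.ker_eq_bot, LinearMap.ker_eq_bot']
    intro c hc
    exact corr_inj hc
  have hdim : Module.finrank W.K (W.H (X.prod Y)) =
      Module.finrank W.K (W.H X →ₗ[W.K] W.H Y) := by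
    have e := LinearEquiv.ofBijective _ (W.kunneth X Y)
    rw [← e.finrank_eq, Module.finrank_tensorProduct, Module.finrank_linearMap]
  have hsurj := (LinearMap.injective_iff_surjective_of_finrank_eq_finrank hdim).1 hinj
  obtain ⟨τ, hτ⟩ := hsurj T
  exact ⟨τ, hτ⟩

/-- The component of degree `m` of an element of `grZ i`. -/
lemma proj_grZ {K : Type*} [Field K] {V : Type*} [AddCommGroup V] [Module K V]
    {gr : ℕ → Submodule K V} (h : DirectSum.IsInternal gr) {i : ℤ} {a : V}
    (ha : a ∈ grZ gr i) (m : ℕ) : proj h m a = if (m : ℤ) = i then a else 0 := by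
  by_cases h0 : 0 ≤ i
  · lift i to ℕ using h0
    rw [grZ_natCast] at ha
    split_ifs with h1
    · obtain rfl : m = i := by exact_mod_cast h1
      exact proj_same h ha
    · exact proj_ne h ha (fun h2 => h1 (by rw [h2]))
  · rw [grZ_of_neg (by omega)] at ha
    rw [(Submodule.mem_bot _).1 ha, map_zero, ite_self]

/-- The class of a homogeneous operator is homogeneous. -/
lemma mem_gr_of_isHom {p : ℕ} {τ : W.H (X.prod X)}
    (hτ : IsHom (W.gr X) (2 * ((p : ℤ) - X.dim)) (W.corr τ)) : τ ∈ W.gr (X.prod X) (2 * p) := by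
  set h2 := W.isInternal (X.prod X) with hh2
  have hzero : ∀ j, j ≠ 2 * p → proj h2 j τ = 0 := by
    intro j hj
    apply corr_inj
    apply gr_ext (W.isInternal X)
    intro i a ha
    rw [LinearMap.zero_apply]
    have hx : ∀ l : ℕ, W.corr (proj h2 l τ) a ∈ grZ (W.gr X) ((l : ℤ) + i - 2 * X.dim) := by
      intro l
      have h1 := W.push_mem (snd X X) (W.mul_mem (proj_mem h2 l τ) (W.map_mem (fst X X) ha))
      rw [corr_apply]
      have e : ((l + i : ℕ) : ℤ) + 2 * ((X.dim : ℤ) - (X.prod X).dim) =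
          (l : ℤ) + i - 2 * X.dim := by
        rw [dim_prod]; push_cast; ring
      rwa [e] at h1
    have hsum : ∑ l ∈ range (4 * X.dim + 1), W.corr (proj h2 l τ) a = W.corr τ a := by
      have h3 := sum_proj h2 (N := 4 * X.dim + 1) (fun i hi => W.gr_eq_bot _ i (by
        rw [dim_prod]; omega))
      have h4 : ∑ l ∈ range (4 * X.dim + 1), proj h2 l τ = τ := by
        have := congrArg (fun F => F τ) h3
        simpa using this
      conv_rhs => rw [← h4]
      have h5 := map_sum (corrLin W X X) (fun l => proj h2 l τ) (range (4 * X.dim + 1))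
      have h6 := congrArg (fun F => F a) h5
      simp only [LinearMap.sum_apply] at h6
      exact h6.symm
    by_cases hm : (j : ℤ) + i - 2 * X.dim < 0
    · have := hx j
      rw [grZ_of_neg hm] at this
      exact (Submodule.mem_bot _).1 this
    · obtain ⟨m, hm'⟩ := Int.eq_ofNat_of_zero_le (not_lt.1 hm)
      by_cases hj4 : j < 4 * X.dim + 1
      · have e1 := congrArg (proj (W.isInternal X) m) hsum
        rw [map_sum, Finset.sum_eq_single j] at e1
        · rw [proj_grZ (W.isInternal X) (hx j), if_pos (by omega)] at e1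
          rw [e1, proj_grZ (W.isInternal X) (hτ i a (by rw [grZ_natCast]; exact ha)),
            if_neg (by omega)]
        · intro l _ hl
          rw [proj_grZ (W.isInternal X) (hx l), if_neg (by omega)]
        · intro h'
          exact absurd (Finset.mem_range.2 hj4) h'
      · have : proj h2 j τ = 0 := by
          have h7 := proj_mem h2 j τ
          rw [W.gr_eq_bot _ j (by rw [dim_prod]; omega)] at h7
          exact (Submodule.mem_bot _).1 h7
        rw [this, corr_zero, LinearMap.zero_apply]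
  have h3 := sum_proj h2 (N := 4 * X.dim + 2 * p + 1) (fun i hi => W.gr_eq_bot _ i (by
        rw [dim_prod]; omega))
  have h4 := congrArg (fun F => F τ) h3
  rw [LinearMap.sum_apply, Finset.sum_eq_single (2 * p), Module.End.one_apply] at h4
  · rw [← h4]
    exact proj_mem h2 _ τ
  · intro l _ hl
    exact hzero l hl
  · intro h'
    exact absurd (Finset.mem_range.2 (by omega)) h'

/-- The inverse classes exist and are unique. -/
theorem existsUnique_inverseClass {D : X.Cycles} (hD : X.IsCyc 1 D) (hHL : HardLefschetz W X D)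
    {c : ℕ} (hc : c ≤ X.dim) : ∃! τ, IsInverseClass W X D c τ := by
  have hLh : IsHom (W.gr X) 2 (LinearMap.mulLeft W.K (W.cl X D)) := by
    simpa using rop_opAlg.hom (rop_mulLeft (W := W) hD)
  obtain ⟨T, hT⟩ := exists_isInv (W.isInternal X) hLh hHL hc
  obtain ⟨τ, rfl⟩ := exists_corr T
  refine ⟨τ, ⟨mem_gr_of_isHom ?_, hT⟩, ?_⟩
  · have := hT.isHom (W.isInternal X) hHL hc
    rwa [show (-(c : ℤ)) = ((X.dim - c : ℕ) : ℤ) - X.dim by omega] at this
  · rintro τ' ⟨-, hτ'⟩
    have h1 : W.corr τ' = W.corr τ := IsInv.unique (W.isInternal X) hHL hc hτ' hT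
    have h2 : corrLin W X X (τ' - τ) = 0 := by
      rw [map_sub]
      exact sub_eq_zero.2 h1
    exact sub_eq_zero.1 (corr_inj h2)

lemma map_swap_swap (c : W.H (X.prod X)) : W.map (swap X X) (W.map (swap X X) c) = c := by
  refine W.kunneth_induction (p := fun c => W.map (swap X X) (W.map (swap X X) c) = c) ?_ ?_ c
  · intro a b ha hb
    rw [map_add, map_add, ha, hb]
  · intro i j a _ b _
    simp only [map_mul, ← W.map_comp, swap_fst, swap_snd]

lemma swap_span {q : ℤ} {γ : W.H (X.prod X)} (hγ : γ ∈ spanCycles W (X.prod X) q) :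
    W.map (swap X X) γ ∈ spanCycles W (X.prod X) q := by
  induction hγ using Submodule.span_induction with
  | mem x hx =>
    obtain ⟨p, hp, z, hz, rfl⟩ := hx
    exact Submodule.subset_span ⟨p, hp, ops.pull (swap X X) z, ops.pull_mem _ hz, W.cl_pull _ _⟩
  | zero => rw [map_zero]; exact Submodule.zero_mem _
  | add x y _ _ hx hy => rw [map_add]; exact Submodule.add_mem _ hx hy
  | smul a x _ hx => rw [map_smul]; exact Submodule.smul_mem _ _ hx

lemma span_gr {q : ℕ} {γ : W.H Y} (hγ : γ ∈ spanCycles W Y q) : γ ∈ W.gr Y (2 * q) := by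
  induction hγ using Submodule.span_induction with
  | mem x hx =>
    obtain ⟨p, hp, z, hz, rfl⟩ := hx
    obtain rfl : p = q := by exact_mod_cast hp
    exact W.cl_mem hz
  | zero => exact Submodule.zero_mem _
  | add x y _ _ hx hy => exact Submodule.add_mem _ hx hy
  | smul a x _ hx => exact Submodule.smul_mem _ _ hx

lemma mem_span_cl {q : ℕ} {z : Y.Cycles} (hz : Y.IsCyc q z) : W.cl Y z ∈ spanCycles W Y q :=
  Submodule.subset_span ⟨q, rfl, z, hz, rfl⟩

lemma tr_mul_cl {p q : ℕ} {z u : Y.Cycles} (hz : Y.IsCyc p z) (hu : Y.IsCyc q u)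
    (hpq : p + q = Y.dim) :
    W.tr Y (W.cl Y z * W.cl Y u) = (Y.V.degCycle (ops.mul z u) : W.K) := by
  rw [← W.cl_mul, W.tr_cl]
  rw [← hpq]
  exact ops.mul_mem hz hu

/-- Representation of functionals. -/
lemma exists_rep_of_orth {K : Type*} [Field K] {A : Type*} [AddCommGroup A] [Module K A]
    [Module.Finite K A] (b : A →ₗ[K] A →ₗ[K] K) (S S' : Submodule K A) (ψ : A →ₗ[K] K)
    (h : ∀ γ ∈ S', (∀ w ∈ S, b w γ = 0) → ψ γ = 0) : ∃ w ∈ S, ∀ γ ∈ S', b w γ = ψ γ := by
  set B : A →ₗ[K] Module.Dual K S' :=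
    (LinearMap.lcomp K K S'.subtype) ∘ₗ b with hB
  have hBa : ∀ w (γ : S'), B w γ = b w γ := fun w γ => rfl
  set Φ := S.map B with hΦ
  have h1 : ψ ∘ₗ S'.subtype ∈ Φ.dualCoannihilator.dualAnnihilator := by
    rw [Submodule.mem_dualAnnihilator]
    intro γ hγ
    rw [Submodule.mem_dualCoannihilator] at hγ
    apply h _ γ.2
    intro w hw
    rw [← hBa]
    exact hγ _ (Submodule.mem_map_of_mem hw)
  rw [Subspace.dualCoannihilator_dualAnnihilator_eq, hΦ, Submodule.mem_map] at h1
  obtain ⟨w, hw, hw'⟩ := h1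
  refine ⟨w, hw, fun γ hγ => ?_⟩
  have := congrArg (fun F => F (⟨γ, hγ⟩ : S')) hw'
  exact this

/-- From rational cycles to linear combinations. -/
lemma NumRational.numOrthogonal {p q : ℕ} (hpq : p + q = Y.dim) {τ : W.H Y}
    (h : NumRational W Y p q τ) : NumOrthogonal W Y p q τ := by
  intro γ hγ horth
  have hrep : ∃ (m : ℕ) (c : Fin m → W.K) (z : Fin m → Y.Cycles), (∀ i, Y.IsCyc q (z i)) ∧
      γ = ∑ i, c i • W.cl Y (z i) := by
    rw [spanCycles, Submodule.mem_span_set'] at hγ
    obtain ⟨m, c, g, hg⟩ := hγ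
    choose p' hp' z hz hz' using fun i => (g i).2
    refine ⟨m, c, z, fun i => ?_, ?_⟩
    · have : p' i = q := by exact_mod_cast hp' i
      rw [← this]; exact hz i
    · rw [← hg]
      exact Finset.sum_congr rfl (fun i _ => by rw [hz' i])
  obtain ⟨m, c, z, hz, rfl⟩ := hrep
  rw [← Module.forall_dual_apply_eq_zero_iff ℚ]
  intro ret
  -- the twisted cycle
  set u : Y.Cycles := ∑ i, ret (c i) • z i with hu
  have hucyc : Y.IsCyc q u := by
    rw [hu]
    refine Finset.sum_induction _ (fun u => Y.IsCyc q u) (fun a b => SmVar.IsCyc.add)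
      (SmVar.IsCyc.zero _ _) (fun i _ => (hz i).smul _)
  have hcl : W.cl Y u = ∑ i, ((ret (c i) : ℚ) : W.K) • W.cl Y (z i) := by
    rw [hu, map_sum]
    exact Finset.sum_congr rfl (fun i _ => cl_smul W _ _)
  choose r hr hr' using fun i => h (z i) (hz i)
  simp only [inter] at hr horth
  have key : ∀ (f : W.H Y →ₗ[W.K] W.K) (s : Fin m → ℚ), (∀ i, f (W.cl Y (z i)) = (s i : W.K)) →
      f (W.cl Y u) = ((ret (f (∑ i, c i • W.cl Y (z i))) : ℚ) : W.K) := by
    intro f s hs
    rw [hcl, map_sum, map_sum, map_sum]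
    push_cast
    apply Finset.sum_congr rfl
    intro i _
    rw [map_smul, map_smul, hs, smul_eq_mul, smul_eq_mul, ret_mul]
    push_cast; rfl
  obtain ⟨r0, h0, h0'⟩ := h u hucyc
  rw [inter] at h0
  have h1 : r0 = 0 := by
    apply h0'
    intro w hw
    have h2 := key (W.tr Y ∘ₗ LinearMap.mulLeft W.K (W.cl Y w))
      (fun i => Y.V.degCycle (ops.mul w (z i))) (fun i => by
        rw [LinearMap.comp_apply, LinearMap.mulLeft_apply]
        exact tr_mul_cl hw (hz i) hpq)
    rw [LinearMap.comp_apply, LinearMap.mulLeft_apply, tr_mul_cl hw hucyc hpq,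
      LinearMap.comp_apply, LinearMap.mulLeft_apply, horth w hw, map_zero, Rat.cast_zero] at h2
    exact_mod_cast h2
  have h3 := key (W.tr Y ∘ₗ LinearMap.mulLeft W.K τ) r (fun i => by
    rw [LinearMap.comp_apply, LinearMap.mulLeft_apply]
    exact hr i)
  rw [LinearMap.comp_apply, LinearMap.mulLeft_apply, h0, h1, LinearMap.comp_apply,
    LinearMap.mulLeft_apply, Rat.cast_zero] at h3
  exact_mod_cast h3.symm

lemma inter_def (a b : W.H Y) : inter W Y a b = W.tr Y (a * b) := rfl

/-- **The main theorem.** -/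
theorem num_tfae {D : X.Cycles} (hD : X.IsCyc 1 D) (hHL : HardLefschetz W X D) :
    List.TFAE [LefschetzB W X D,
      ForInverseClasses W X D (NumAlgebraic W (X.prod X)),
      ForInverseClasses W X D (NumRational W (X.prod X)),
      ForInverseClasses W X D (NumOrthogonal W (X.prod X))] := by
  have hLh : IsHom (W.gr X) 2 (LinearMap.mulLeft W.K (W.cl X D)) := by
    simpa using rop_opAlg.hom (rop_mulLeft (W := W) hD)
  tfae_have 1 → 2 := by
    intro hB c _ hc τ hτ
    obtain ⟨Φ, hΦ, hLam⟩ := lefschetzB_iff_rop.1 hB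
    have hT := isInv_of_theta (W.isInternal X) hLh hc
      (fun a ha => lam_pow_L_pow hLh W_hbd hHL hLam hc ha)
    have hTR : ROp W X (-c) (Φ ^ c * proj (W.isInternal X) (X.dim + c)) :=
      rop_opAlg.cast (rop_opAlg.mul (rop_opAlg.cast (rop_opAlg.pow hΦ c) rfl)
        (rop_opAlg.proj_mem (W.isInternal X) W_hbd (rop_mulLeft hD) hHL hΦ hLam _)) (by ring)
    have h1 : W.corr τ = Φ ^ c * proj (W.isInternal X) (X.dim + c) :=
      IsInv.unique (W.isInternal X) hHL hc hτ.2 hT
    obtain ⟨Y, ⟨q, hq, z, hz, hY⟩ | ⟨hd, -⟩, hYT⟩ := hTR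
    · obtain rfl : q = X.dim - c := by omega
      have h2 : W.cl _ z = τ := by
        have h3 : corrLin W X X (W.cl _ z - τ) = 0 := by
          rw [map_sub]
          apply sub_eq_zero.2
          change W.corr (W.cl _ z) = W.corr τ
          rw [h1, ← hYT, hY]
        exact sub_eq_zero.1 (corr_inj h3)
      refine ⟨z, hz, fun u hu => ?_⟩
      rw [← h2]
      exact tr_mul_cl hz hu (by rw [dim_prod]; omega)
    · omega
  tfae_have 2 → 3 := by
    intro h c h1 hc τ hτ u hu
    obtain ⟨z, hz, hzu⟩ := h c h1 hc τ hτ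
    exact ⟨_, hzu u hu, fun h0 => h0 z hz⟩
  tfae_have 3 → 4 := by
    intro h c h1 hc τ hτ
    exact (h c h1 hc τ hτ).numOrthogonal (by rw [dim_prod]; omega)
  tfae_have 4 → 1 := by
    intro h
    apply lefschetzB_of_inj hD hHL
    have hmain := exists_theta_of_num rop_opAlg.kspan (W.isInternal X) W_hbd
      (Submodule.subset_span (rop_mulLeft (W := W) hD)) hHL (by
        intro c h1 hc T hT
        obtain ⟨τ, rfl⟩ := exists_corr T
        have hτm : τ ∈ W.gr (X.prod X) (2 * (X.dim - c)) := by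
          apply mem_gr_of_isHom
          have := hT.isHom (W.isInternal X) hHL hc
          rwa [show (-(c : ℤ)) = ((X.dim - c : ℕ) : ℤ) - X.dim by omega] at this
        obtain ⟨γ, hγ, hγ'⟩ := exists_rep_of_orth (bil W (X.prod X))
          (spanCycles W (X.prod X) ((X.dim - c : ℕ) : ℤ))
          (spanCycles W (X.prod X) ((X.dim + c : ℕ) : ℤ))
          (W.tr (X.prod X) ∘ₗ LinearMap.mulLeft W.K τ) (by
            intro δ hδ h0
            exact h c h1 hc τ ⟨hτm, hT⟩ δ hδ (fun w hw => h0 _ (mem_span_cl hw)))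
        refine ⟨W.corr γ, ?_, ?_⟩
        · rw [mem_KS_iff, mem_KOp_iff]
          refine ⟨γ, ?_, rfl⟩
          rwa [show (X.dim : ℤ) + -(c : ℤ) = ((X.dim - c : ℕ) : ℤ) by omega]
        · intro u hu
          rw [mem_KS_iff, mem_KOp_iff] at hu
          obtain ⟨δ, hδ, rfl⟩ := hu
          have hδ' : δ ∈ spanCycles W (X.prod X) ((X.dim + c : ℕ) : ℤ) := by
            rwa [show ((X.dim + c : ℕ) : ℤ) = (X.dim : ℤ) + (c : ℤ) by push_cast; rfl]
          have e1 := hγ' _ (swap_span hδ')
          rw [bil_apply, LinearMap.comp_apply, LinearMap.mulLeft_apply,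
            tr_mul_eq_trace (span_gr hγ), tr_mul_eq_trace hτm, map_swap_swap, mul_assoc,
            mul_assoc] at e1
          exact e1)
    intro c hc
    obtain ⟨-, -, θ, hθ, hθ'⟩ := hmain (X.dim - c) (by omega) c (by omega)
    refine ⟨θ, mem_KS_iff.1 hθ, fun b hb h0 => ?_⟩
    obtain ⟨a, ha, rfl⟩ := surj_pow hHL hc hb
    rw [hθ' a ha] at h0
    rw [h0, map_zero]
  tfae_finish

end Pool.Agent.H447
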