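import Pool.Agent.H90.G.S8.H914R2.HodgeDefs

/-!
# The weight operator as a sum of commutators: definitions
-/

open CategoryTheory AlgebraicGeometry

universe u v

namespace Pool.Agent.H447

section Alg

variable {K : Type*} [Field K] {V : Type*} [AddCommGroup V] [Module K V]

/-- The operator `H` acts as multiplication by `j - n` on `gr j`. -/
def IsWeightOp (gr : ℕ → Submodule K V) (n : ℕ) (H : Module.End K V) : Prop :=
  ∀ j, ∀ a ∈ gr j, H a = ((j : K) - (n : K)) • a

/-- The sum of the commutators `z i w i - w i z i`. -/
def commSum {r : ℕ} (z w : Fin r → Module.End K V) : Module.End K V :=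
  ∑ i, (z i * w i - w i * z i)

/-- The operators `S ∘ u` and `H ∘ u` have the same trace. -/
def SameTrace (S H u : Module.End K V) : Prop :=
  LinearMap.trace K V (S * u) = LinearMap.trace K V (H * u)

end Alg

open Pool.Agent.H914 VarClass Obj WeilCohomology

variable {k : Type u} [Field k] {𝒱 : VarClass k} {ops : CycleOps 𝒱}

/-- There are finitely many pairs of algebraic correspondences `z i`, `w i` of opposite degrees
(cycles on `X × X` of codimensions `p i`, `q i` with `p i + q i = 2 n`) such that the sum of the
commutators `[z i, w i]` has the same trace as the weight operator (which acts as `j - n` on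
`H^j(X)`) against every algebraic correspondence of degree zero (cycle of codimension `n = dim X`
on `X × X`). -/
def WeightIsNumCommutatorSum (W : WeilCohomology.{u, v} ops) (X : 𝒱.Obj) : Prop :=
  ∃ (r : ℕ) (p q : Fin r → ℕ) (z w : Fin r → (X.prod X).Cycles),
    (∀ i, p i + q i = 2 * X.dim ∧ (X.prod X).IsCyc (p i) (z i) ∧
      (X.prod X).IsCyc (q i) (w i)) ∧
    ∀ H, IsWeightOp (W.gr X) X.dim H → ∀ u, (X.prod X).IsCyc X.dim u →
      SameTrace (commSum (fun i => W.corr (W.cl (X.prod X) (z i)))
        (fun i => W.corr (W.cl (X.prod X) (w i)))) H (W.corr (W.cl (X.prod X) u))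

end Pool.Agent.H447
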