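import Pool.Agent.H90.G.S8.H447R3.WtA
import Pool.Agent.H90.G.S8.H447R3.WtDefs
import Pool.Agent.H90.G.S8.H447R3.NumB

/-!
# The conjecture B and commutators of correspondences
-/

open CategoryTheory AlgebraicGeometry Finset

universe u v

namespace Pool.Agent.H447

open Pool.Agent.H914 VarClass Obj WeilCohomology

section Abs

variable {K : Type*} [Field K] [CharZero K] {V : Type*} [AddCommGroup V] [Module K V]
  {gr : ℕ → Submodule K V} {n : ℕ} {R : ℤ → Module.End K V → Prop}

/-- The total space of the operators in the span of `R`. -/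
def tot (R : ℤ → Module.End K V → Prop) : Submodule K (Module.End K V) := ⨆ d : ℤ, KS R d

omit [CharZero K] in
lemma mem_tot {d : ℤ} {y : Module.End K V} (hy : y ∈ KS R d) : y ∈ tot R :=
  Submodule.mem_iSup_of_mem d hy

lemma tot_mul (hR : OpAlg gr R) : ∀ x ∈ tot R, ∀ y ∈ tot R, x * y ∈ tot R := by
  intro x hx y hy
  refine Submodule.iSup_induction (fun d : ℤ => KS R d) (motive := fun x => x * y ∈ tot R) hx
    ?_ ?_ ?_
  · intro d x hx
    refine Submodule.iSup_induction (fun d : ℤ => KS R d) (motive := fun y => x * y ∈ tot R) hy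
      ?_ ?_ ?_
    · intro e y hy
      exact mem_tot (hR.kspan.mul hx hy)
    · rw [mul_zero]; exact Submodule.zero_mem _
    · intro y z hy hz
      rw [mul_add]; exact Submodule.add_mem _ hy hz
  · rw [zero_mul]; exact Submodule.zero_mem _
  · intro x z hx hz
    rw [add_mul]; exact Submodule.add_mem _ hx hz

lemma tot_extract (hR : OpAlg gr R) (h : DirectSum.IsInternal gr)
    (hP : ∀ i, proj h i ∈ KS R 0) {m : ℕ} (hm : m ≤ n) {y : Module.End K V} (hy : y ∈ tot R) :
    proj h (n - m) * y * proj h (n + m) ∈ KS R (-m) := by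
  refine Submodule.iSup_induction (fun d : ℤ => KS R d)
    (motive := fun y => proj h (n - m) * y * proj h (n + m) ∈ KS R (-m)) hy ?_ ?_ ?_
  · intro d y hy
    by_cases hd : d = -m
    · subst hd
      exact hR.kspan.cast (hR.kspan.mul (hR.kspan.mul (hP _) hy) (hP _)) (by ring)
    · have : proj h (n - m) * y * proj h (n + m) = 0 := by
        apply gr_ext h
        intro i a ha
        rw [Module.End.mul_apply, Module.End.mul_apply, LinearMap.zero_apply]
        by_cases hi : i = n + m
        · subst hi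
          rw [proj_same h ha, proj_grZ h ((hR.kspan.hom hy) _ a (by rw [grZ_natCast]; exact ha)),
            if_neg (by omega)]
        · rw [proj_ne h ha hi, map_zero, map_zero]
      rw [this]
      exact Submodule.zero_mem _
  · rw [mul_zero, zero_mul]; exact Submodule.zero_mem _
  · intro x z hx hz
    rw [mul_add, add_mul]; exact Submodule.add_mem _ hx hz

end Abs

variable {k : Type u} [Field k] {𝒱 : VarClass k} {ops : CycleOps 𝒱}
  {W : WeilCohomology.{u, v} ops} {X Y : 𝒱.Obj}

lemma rop_corr {p : ℕ} {d : ℤ} (hd : (p : ℤ) = X.dim + d) {z : (X.prod X).Cycles}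
    (hz : (X.prod X).IsCyc p z) : ROp W X d (W.corr (W.cl _ z)) :=
  ⟨fun W => W.corr (W.cl _ z), Or.inl ⟨p, hd, z, hz, fun _ => rfl⟩, rfl⟩

lemma exists_of_rop {p : ℕ} {d : ℤ} (hd : (p : ℤ) = X.dim + d) {y : Module.End W.K (W.H X)}
    (hy : ROp W X d y) : ∃ z, (X.prod X).IsCyc p z ∧ W.corr (W.cl _ z) = y := by
  obtain ⟨Y, ⟨r, hr, z, hz, hY⟩ | ⟨hd', -⟩, rfl⟩ := hy
  · obtain rfl : r = p := by omega
    exact ⟨z, hz, (hY W).symm⟩
  · omega

lemma isWeightOp_iff {H : Module.End W.K (W.H X)} :
    IsWeightOp (W.gr X) X.dim H ↔ H = wt (W.isInternal X) X.dim := by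
  constructor
  · intro hH
    apply gr_ext (W.isInternal X)
    intro i a ha
    rw [hH i a ha, wt, scal_apply _ _ ha, node]
    push_cast; rfl
  · rintro rfl j a ha
    rw [wt, scal_apply _ _ ha, node]
    push_cast; rfl

lemma kunneth_rop (hK : KunnethStd W X) (i : ℕ) : ROp W X 0 (proj (W.isInternal X) i) := by
  obtain ⟨P, hP, hP'⟩ := hK i
  have : W.corr (W.cl _ P) = proj (W.isInternal X) i := by
    apply gr_ext (W.isInternal X)
    intro j a ha
    rw [hP' j a ha]
    split_ifs with h
    · subst h; rw [proj_same _ ha]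
    · rw [proj_ne _ ha h]
  rw [← this]
  exact rop_corr (by simp) hP

lemma kunneth_of_rop (h : ∀ i, ROp W X 0 (proj (W.isInternal X) i)) : KunnethStd W X := by
  intro i
  obtain ⟨z, hz, hz'⟩ := exists_of_rop (p := X.dim) (by simp) (h i)
  refine ⟨z, hz, fun j a ha => ?_⟩
  rw [hz']
  split_ifs with hj
  · subst hj; rw [proj_same _ ha]
  · rw [proj_ne _ ha hj]

/-- **The Lefschetz standard conjecture and commutators.** -/
theorem weight_tfae {D : X.Cycles} (hD : X.IsCyc 1 D) (hHL : HardLefschetz W X D) :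
    List.TFAE [LefschetzB W X D, WeightIsCommutatorSum W X,
      KunnethStd W X ∧ WeightIsNumCommutatorSum W X] := by
  have h := W.isInternal X
  have hLh : IsHom (W.gr X) 2 (LinearMap.mulLeft W.K (W.cl X D)) := by
    simpa using rop_opAlg.hom (rop_mulLeft (W := W) hD)
  have hOA := rop_opAlg (W := W) (X := X)
  tfae_have 1 → 2 := by
    intro hB
    obtain ⟨Φ, hΦ, hLam⟩ := lefschetzB_iff_rop.1 hB
    have hwt := sum_comm_eq_wt h hLh W_hbd hHL hLam
    have hz : ∀ i : Fin X.dim, ∃ z, (X.prod X).IsCyc (X.dim + (i + 1)) z ∧ W.corr (W.cl _ z) =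
        LinearMap.mulLeft W.K (W.cl X D) ^ ((i : ℕ) + 1) := fun i =>
      exists_of_rop (d := (i : ℕ) + 1) (by push_cast; ring)
        (hOA.cast (hOA.pow (rop_mulLeft hD) _) (by push_cast; ring))
    have hw : ∀ i : Fin X.dim, ∃ z, (X.prod X).IsCyc (X.dim - (i + 1)) z ∧ W.corr (W.cl _ z) =
        Φ ^ ((i : ℕ) + 1) := fun i =>
      exists_of_rop (d := -((i : ℕ) + 1 : ℕ)) (by have := i.2; omega)
        (hOA.cast (hOA.pow hΦ _) (by push_cast; ring))
    choose z hz hz' using hz
    choose w hw hw' using hw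
    refine ⟨X.dim, fun i => X.dim + (i + 1), fun i => X.dim - (i + 1), z, w,
      fun i => ⟨by have := i.2; beta_reduce; omega, hz i, hw i⟩, ?_⟩
    intro j a ha
    have h1 := congrArg (fun F => F a) hwt
    rw [(isWeightOp_iff.2 rfl) j a ha, LinearMap.sum_apply] at h1
    rw [← h1, ← Fin.sum_univ_eq_sum_range (fun m =>
      (LinearMap.mulLeft W.K (W.cl X D) ^ (m + 1) * Φ ^ (m + 1) -
        Φ ^ (m + 1) * LinearMap.mulLeft W.K (W.cl X D) ^ (m + 1)) a)]
    apply Finset.sum_congr rfl
    intro i _
    beta_reduce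
    rw [hz', hw']
    rfl
  tfae_have 2 → 3 := by
    rintro ⟨r, p, q, z, w, hpq, hsum⟩
    have heq : commSum (fun i => W.corr (W.cl (X.prod X) (z i)))
        (fun i => W.corr (W.cl (X.prod X) (w i))) = wt h X.dim := by
      rw [← isWeightOp_iff]
      intro j a ha
      rw [← hsum j a ha, commSum, LinearMap.sum_apply]
      rfl
    refine ⟨kunneth_of_rop (fun i => ?_), r, p, q, z, w, hpq, ?_⟩
    · have hwR : ROp W X 0 (wt h X.dim) := by
        rw [← heq, commSum]
        apply hOA.sum
        intro i _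
        obtain ⟨h1, h2, h3⟩ := hpq i
        exact hOA.sub
          (hOA.cast (hOA.mul (rop_corr (d := (p i : ℤ) - X.dim) (by ring) h2)
            (rop_corr (d := (q i : ℤ) - X.dim) (by ring) h3)) (by omega))
          (hOA.cast (hOA.mul (rop_corr (d := (q i : ℤ) - X.dim) (by ring) h3)
            (rop_corr (d := (p i : ℤ) - X.dim) (by ring) h2)) (by omega))
      by_cases hi : i < 2 * X.dim + 1
      · rw [← ev_herm_of_nilp h W_hbd (c := 0) (isHom_zero 0) (N := 1) (by simp)
          (Finset.mem_range.2 hi), add_zero]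
        exact hOA.ev hwR _
      · have : proj h i = 0 := by
          apply gr_ext h
          intro j a ha
          by_cases hj : j = i
          · subst hj
            rw [W.gr_eq_bot X j (by omega)] at ha
            rw [(Submodule.mem_bot _).1 ha, map_zero, map_zero]
          · rw [proj_ne h ha hj, LinearMap.zero_apply]
        rw [this]
        exact hOA.zero 0
    · intro H hH u _
      rw [SameTrace, heq, isWeightOp_iff.1 hH]
  tfae_have 3 → 1 := by
    rintro ⟨hK, r, p, q, z, w, hpq, hnum⟩
    apply lefschetzB_of_inj hD hHL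
    have hP : ∀ i, proj h i ∈ KS (ROp W X) 0 := fun i => Submodule.subset_span (kunneth_rop hK i)
    set S := commSum (fun i => W.corr (W.cl (X.prod X) (z i)))
        (fun i => W.corr (W.cl (X.prod X) (w i))) with hS
    have hzt : ∀ i, W.corr (W.cl _ (z i)) ∈ KS (ROp W X) ((p i : ℤ) - X.dim) := fun i =>
      Submodule.subset_span (rop_corr (by ring) (hpq i).2.1)
    have hwt : ∀ i, W.corr (W.cl _ (w i)) ∈ KS (ROp W X) ((q i : ℤ) - X.dim) := fun i =>
      Submodule.subset_span (rop_corr (by ring) (hpq i).2.2)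
    have hSR : S ∈ KS (ROp W X) 0 := by
      rw [hS, commSum]
      apply Submodule.sum_mem
      intro i _
      have h1 := (hpq i).1
      exact Submodule.sub_mem _ (hOA.kspan.cast (hOA.kspan.mul (hzt i) (hwt i)) (by omega))
        (hOA.kspan.cast (hOA.kspan.mul (hwt i) (hzt i)) (by omega))
    have hwR : wt h X.dim ∈ KS (ROp W X) 0 := by
      rw [wt, scal_eq_sum h W_hbd]
      exact Submodule.sum_mem _ (fun i _ => Submodule.smul_mem _ _ (hP i))
    set c := S - wt h X.dim with hc
    have hcR : c ∈ KS (ROp W X) 0 := Submodule.sub_mem _ hSR hwR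
    have hctr : ∀ y ∈ KS (ROp W X) 0, LinearMap.trace W.K (W.H X) (c * y) = 0 := by
      intro y hy
      induction hy using Submodule.span_induction with
      | mem x hx =>
        obtain ⟨u, hu, rfl⟩ := exists_of_rop (p := X.dim) (by simp) hx
        have h1 : LinearMap.trace W.K (W.H X) (S * W.corr (W.cl _ u)) =
            LinearMap.trace W.K (W.H X) (wt h X.dim * W.corr (W.cl _ u)) :=
          hnum _ (isWeightOp_iff.2 rfl) u hu
        rw [hc, sub_mul, map_sub, h1, sub_self]
      | zero => rw [mul_zero, map_zero]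
      | add x y _ _ hx hy => rw [mul_add, map_add, hx, hy, add_zero]
      | smul a x _ hx => rw [mul_smul_comm, map_smul, hx, smul_zero]
    have hcn : IsNilpotent c := by
      apply isNilpotent_of_trace_pow
      intro t
      rw [pow_succ']
      apply hctr
      exact hOA.kspan.cast (hOA.kspan.pow hcR t) (by simp)
    have key := exists_inverse_of_comm (A := tot (ROp W X)) h W_hbd hLh hHL
      (mem_tot (Submodule.subset_span hOA.one)) (tot_mul hOA)
      (mem_tot (Submodule.subset_span (rop_mulLeft hD))) (fun i => mem_tot (hP i))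
      (fun i => mem_tot (hzt i)) (fun i => mem_tot (hwt i)) (c := c)
      (by rw [hc, add_sub_cancel]; rfl) hcn
    intro m hm
    obtain ⟨y, hy, hy1, hy2, hy3⟩ := key m hm
    refine ⟨y, ?_, ?_⟩
    · rw [← mem_KS_iff]
      have h1 := tot_extract hOA h hP hm hy
      rwa [hy1, hy2] at h1
    · intro a ha h0
      have h1 := congrArg (fun F => F a) hy3
      rw [Module.End.mul_apply, h0, map_zero, proj_same h ha] at h1
      exact h1.symm
  tfae_finish

end Pool.Agent.H447
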