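import Pool.Agent.H90.G.S8.H447R3.AoB
import Pool.Agent.H90.G.S8.H447R3.AoDefs
import Pool.Agent.H90.G.S8.H447R3.WtB
import Pool.Agent.H90.G.S8.H914R2.GBasic

/-!
# The conjecture A in one codimension on the square of a variety
-/

open CategoryTheory AlgebraicGeometry Finset

universe u v

namespace Pool.Agent.H447

open Pool.Agent.H914 VarClass Obj WeilCohomology

section Ops

variable {K : Type*} [Field K] [CharZero K] {V : Type*} [AddCommGroup V] [Module K V]
variable {gr : ℕ → Submodule K V} {n : ℕ} {L : Module.End K V}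
  {R : ℤ → Module.End K V → Prop}

/-- If `Λ` is in the algebra, so is the lowering operator. -/
lemma lower_of_lam [Module.Finite K V] (hR : OpAlg gr R) (h : DirectSum.IsInternal gr)
    (hbd : ∀ i, 2 * n + 1 ≤ i → gr i = ⊥) (hL : R 1 L) (hHL : HardLef gr n L)
    {Φ : Module.End K V} (hΦR : R (-1) Φ) (hΦ : IsLam gr n L Φ) {f : Module.End K V}
    (hfv : ∀ i ≤ n, ∀ a ∈ gr i, (L ^ (n - i + 1)) a = 0 → ∀ j ≤ n - i,
      f ((L ^ j) a) = ((j : K) * (((n - i : ℕ) : K) - j + 1)) • (L ^ (j - 1)) a) : R (-1) f := by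
  have hLh : IsHom gr 2 L := by simpa using hR.hom hL
  have hP : ∀ i, R 0 (proj h i) := fun i => hR.proj_mem h hbd hL hHL hΦR hΦ i
  have heR : ∀ i j, R 0 (eij h L Φ i j) := by
    intro i j
    unfold eij
    have h1 : R 0 (1 - L * Φ) := hR.sub hR.one (hR.cast (hR.mul hL hΦR) (by ring))
    have hLj : R j (L ^ j) := hR.cast (hR.pow hL j) (by ring)
    have hΦj : R (-j) (Φ ^ j) := hR.cast (hR.pow hΦR j) (by ring)
    exact hR.cast (hR.mul hLj (hR.mul (hR.mul h1 (hP i)) hΦj)) (by ring)
  have hf : f = ∑ i ∈ range (n + 1), ∑ j ∈ range (n - i + 1),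
      (((j : ℚ) * (((n - i : ℕ) : ℚ) - j + 1) : ℚ) : K) • (Φ * eij h L Φ i j) := by
    apply LinearMap.ext
    intro x
    refine lef_induction' h hLh hbd hHL (p := fun x => f x =
      (∑ i ∈ range (n + 1), ∑ j ∈ range (n - i + 1),
      (((j : ℚ) * (((n - i : ℕ) : ℚ) - j + 1) : ℚ) : K) • (Φ * eij h L Φ i j)) x) ?_ ?_ x
    · intro a b ha hb; rw [map_add, map_add, ha, hb]
    · intro i hi a ha hp j
      by_cases hj : j ≤ n - i
      · rw [hfv i hi a ha hp j hj, LinearMap.sum_apply, Finset.sum_eq_single i]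
        · rw [LinearMap.sum_apply, Finset.sum_eq_single j]
          · rw [LinearMap.smul_apply, Module.End.mul_apply, eij_apply h hLh hΦ hi ha hp hj,
              if_pos ⟨rfl, rfl⟩]
            rcases Nat.eq_zero_or_pos j with rfl | h0
            · simp
            · have := (hΦ i hi a ha hp).2 (j - 1) (by omega)
              rw [show j - 1 + 1 = j by omega] at this
              rw [this]
              congr 1
              push_cast
              rfl
          · intro j' _ hj'
            rw [LinearMap.smul_apply, Module.End.mul_apply, eij_apply h hLh hΦ hi ha hp hj,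
              if_neg (by tauto), map_zero, smul_zero]
          · intro h'; exact absurd (Finset.mem_range.2 (by omega)) h'
        · intro i' _ hi'
          rw [LinearMap.sum_apply]
          apply Finset.sum_eq_zero
          intro j' _
          rw [LinearMap.smul_apply, Module.End.mul_apply, eij_apply h hLh hΦ hi ha hp hj,
            if_neg (by tauto), map_zero, smul_zero]
        · intro h'; exact absurd (Finset.mem_range.2 (by omega)) h'
      · rw [L_pow_gt hp (by omega), map_zero, map_zero]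
  rw [hf]
  apply hR.sum
  intro i _
  apply hR.sum
  intro j _
  exact hR.smul _ (hR.cast (hR.mul hΦR (heR i j)) (by ring))

lemma ad_two {H L f : Module.End K V} (t : Sl2 H L f) {x : Module.End K V}
    (hx : x = ((-1 / 2 : ℚ) : K) • f) :
    (x * L - L * x) * L - L * (x * L - L * x) = L := by
  have h0 : (2 : K) ≠ 0 := two_ne_zero
  have h1 : (2 : K) • x = -f := by
    rw [hx, smul_smul]
    have : (2 : K) * ((-1 / 2 : ℚ) : K) = -1 := by push_cast; field_simp
    rw [this, neg_one_smul]
  apply smul_right_injective (Module.End K V) h0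
  change (2 : K) • ((x * L - L * x) * L - L * (x * L - L * x)) = (2 : K) • L
  have h2 : (2 : K) • ((x * L - L * x) * L - L * (x * L - L * x)) =
      (((2 : K) • x) * L - L * ((2 : K) • x)) * L - L * (((2 : K) • x) * L - L * ((2 : K) • x)) := by
    simp only [smul_sub, mul_sub, sub_mul, smul_mul_assoc, mul_smul_comm]
  rw [h2, h1]
  have h3 := t.ef
  have h4 := t.he
  calc ((-f) * L - L * (-f)) * L - L * ((-f) * L - L * (-f)) =
      (L * f - f * L) * L - L * (L * f - f * L) := by noncomm_ring
    _ = 2 * L := by rw [h3, h4]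
    _ = (2 : K) • L := by rw [two_mul, two_smul]

lemma of_ad_two (h : DirectSum.IsInternal gr) (hL : IsHom gr 2 L)
    (hbd : ∀ i, 2 * n + 1 ≤ i → gr i = ⊥) (hHL : HardLef gr n L) {H f x : Module.End K V}
    (t : Sl2 H L f) (hf : IsHom gr (-2) f) (hx : IsHom gr (-2) x)
    (h2 : (x * L - L * x) * L - L * (x * L - L * x) = L) : f = ((-2 : ℚ) : K) • x := by
  have h3 := ad_two t (x := ((-1 / 2 : ℚ) : K) • f) rfl
  set y := ((-1 / 2 : ℚ) : K) • f with hy
  have h4 : x - y = 0 := by
    apply eq_zero_of_ad_ad h hL hbd hHL (hx.sub (hf.smul _))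
    rw [← sub_eq_zero]
    calc L * (L * (x - y) - (x - y) * L) - (L * (x - y) - (x - y) * L) * L
        = ((x * L - L * x) * L - L * (x * L - L * x)) -
          ((y * L - L * y) * L - L * (y * L - L * y)) := by noncomm_ring
      _ = 0 := by rw [h2, h3, sub_self]
  rw [sub_eq_zero] at h4
  rw [h4, hy, smul_smul, ← Rat.cast_mul]
  norm_num

end Ops

variable {k : Type u} [Field k] {𝒱 : VarClass k} {ops : CycleOps 𝒱}
  {W : WeilCohomology.{u, v} ops} {X Y : 𝒱.Obj}

/-- The conjecture B from the lowering operator. -/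
lemma lefschetzB_of_lower {D : X.Cycles} (hD : X.IsCyc 1 D) (hHL : HardLefschetz W X D)
    {f : Module.End W.K (W.H X)}
    (t : Sl2 (wt (W.isInternal X) X.dim) (LinearMap.mulLeft W.K (W.cl X D)) f)
    (hfR : ROp W X (-1) f) : LefschetzB W X D := by
  apply lefschetzB_of_inj hD hHL
  intro c _
  refine ⟨f ^ c, ?_, ?_⟩
  · rw [← mem_KS_iff]
    exact Submodule.subset_span (rop_opAlg.cast (rop_opAlg.pow hfR c) (by ring))
  · intro a ha h0
    apply f_pow_inj t _ h0
    rw [wt, scal_apply _ _ ha]
    congr 1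
    rw [node]
    push_cast; ring

lemma corr_fst (ξ : W.H X) (c : W.H (X.prod X)) {p : ℕ} (hξ : ξ ∈ W.gr X (2 * p)) :
    W.corr (W.map (fst X X) ξ * c) = W.corr c * LinearMap.mulLeft W.K ξ := by
  apply LinearMap.ext
  intro a
  rw [corr_apply, Module.End.mul_apply, LinearMap.mulLeft_apply, corr_apply,
    W.even_comm (W.map_mem _ hξ), mul_assoc, ← map_mul (W.map (fst X X))]

lemma corr_snd (ξ : W.H X) (c : W.H (X.prod X)) {p : ℕ} (hξ : ξ ∈ W.gr X (2 * p)) :
    W.corr (W.map (snd X X) ξ * c) = LinearMap.mulLeft W.K ξ * W.corr c := by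
  apply LinearMap.ext
  intro a
  rw [corr_apply, Module.End.mul_apply, LinearMap.mulLeft_apply, corr_apply, mul_assoc,
    ← W.mul_push _ hξ]

lemma corr_sub' (c d : W.H (X.prod X)) : W.corr (c - d) = W.corr c - W.corr d := by
  rw [eq_sub_iff_add_eq, ← corr_add, sub_add_cancel]

/-- Multiplication by `D × X - X × D` on the level of operators. -/
lemma corr_boxDiff {D : X.Cycles} (hD : X.IsCyc 1 D) (c : W.H (X.prod X)) :
    W.corr (W.cl _ (boxDiff ops D) * c) =
      W.corr c * LinearMap.mulLeft W.K (W.cl X D) - LinearMap.mulLeft W.K (W.cl X D) * W.corr c := by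
  rw [boxDiff, map_sub, W.cl_pull, W.cl_pull, sub_mul, corr_sub', corr_fst _ _ (W.cl_mem hD),
    corr_snd _ _ (W.cl_mem hD)]

lemma corr_boxDiff_two {D : X.Cycles} (hD : X.IsCyc 1 D) (c : (X.prod X).Cycles)
    {L : Module.End W.K (W.H X)} (hL : LinearMap.mulLeft W.K (W.cl X D) = L) :
    W.corr (W.cl _ (divPow ops (boxDiff ops D) 2 c)) =
      (W.corr (W.cl _ c) * L - L * W.corr (W.cl _ c)) * L -
        L * (W.corr (W.cl _ c) * L - L * W.corr (W.cl _ c)) := by
  subst hL
  rw [cl_divPow, pow_two, Module.End.mul_apply, LinearMap.mulLeft_apply, LinearMap.mulLeft_apply,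
    corr_boxDiff hD, corr_boxDiff hD]

/-- **The conjecture A in one codimension on the square of a variety.** -/
theorem a_tfae {D : X.Cycles} (hD : X.IsCyc 1 D) (hHL : HardLefschetz W X D) :
    List.TFAE [LefschetzB W X D, LefschetzA W (X.prod X) (boxSum ops D),
      LefschetzAIn W (X.prod X) (boxSum ops D) (X.dim - 1), DiagDivisible W X D] := by
  have h := W.isInternal X
  have hLR := rop_mulLeft (W := W) hD
  have hLh : IsHom (W.gr X) 2 (LinearMap.mulLeft W.K (W.cl X D)) := by
    simpa using rop_opAlg.hom hLR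
  have hOA := rop_opAlg (W := W) (X := X)
  obtain ⟨f, t, hf, hfv⟩ := exists_sl2 h hLh W_hbd hHL
  -- varieties of dimension zero
  have hn0 : X.dim = 0 → ROp W X (-1) f := by
    intro hn
    have : f = 0 := by
      apply gr_ext h
      intro i a ha
      rw [LinearMap.zero_apply]
      by_cases hi : i = 0
      · have h1 := hf i a (by rw [grZ_natCast]; exact ha)
        rw [grZ_of_neg (by omega)] at h1
        exact (Submodule.mem_bot _).1 h1
      · rw [W.gr_eq_bot X i (by omega)] at ha
        rw [(Submodule.mem_bot _).1 ha, map_zero]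
    rw [this]
    exact hOA.zero _
  have hlow : LefschetzB W X D → ROp W X (-1) f := by
    intro hB
    obtain ⟨Φ, hΦ, hLam⟩ := lefschetzB_iff_rop.1 hB
    exact lower_of_lam hOA h W_hbd hLR hHL hΦ hLam hfv
  tfae_have 1 → 2 := by
    intro hB j hj y hy
    have hfR := hlow hB
    rw [dim_prod] at hj hy ⊢
    obtain ⟨m, hm⟩ : ∃ m, X.dim = j + m := ⟨X.dim - j, by omega⟩
    obtain ⟨z, hz, hzy⟩ := exists_preimage (sl2_dbl t) (P := ROp W X) hOA.zero hOA.add
      (fun q _ _ hx => hOA.smul q hx)
      (fun {d x} hx => hOA.add (hOA.cast (hOA.mul hLR hx) (by ring)) (hOA.mul hx hLR))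
      (fun {d x} hx => hOA.add (hOA.cast (hOA.mul hfR hx) (by ring)) (hOA.mul hx hfR))
      (fun {d x} hx => weight_dbl h (hOA.hom hx)) m
      (rop_corr (p := X.dim + X.dim - j) (by omega) hy)
    obtain ⟨z, hz', rfl⟩ := exists_of_rop (p := j) (by omega) hz
    refine ⟨z, hz', ?_⟩
    rw [← sub_eq_zero]
    apply corr_inj
    rw [corr_sub', cl_divPow, corr_boxSum_pow hD, show X.dim + X.dim - 2 * j = 2 * m by omega,
      hzy, sub_self]
  tfae_have 2 → 3 := fun hA => hA _ (by rw [dim_prod]; omega)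
  tfae_have 3 → 1 := by
    intro hA
    by_cases hn : X.dim = 0
    · exact lefschetzB_of_lower hD hHL t (hn0 hn)
    apply lefschetzB_of_lower hD hHL t
    apply lower_mem_of_surj hOA h W_hbd hLR hHL t hf
    intro y hy
    obtain ⟨y, hy', rfl⟩ := exists_of_rop (p := X.dim + 1) (by push_cast; ring) hy
    obtain ⟨z, hz, hzy⟩ := hA y (by
      rwa [dim_prod, show X.dim + X.dim - (X.dim - 1) = X.dim + 1 by omega])
    refine ⟨_, rop_corr (p := X.dim - 1) (by omega) hz, ?_⟩
    rw [← hzy, cl_divPow, corr_boxSum_pow hD, dim_prod,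
      show X.dim + X.dim - 2 * (X.dim - 1) = 2 by omega]
  tfae_have 1 → 4 := by
    intro hB
    have hfR := hlow hB
    by_cases hn : X.dim = 0
    · refine ⟨0, SmVar.IsCyc.zero _ _, ?_⟩
      have h1 : W.cl (X.prod X) (ops.push (diag X) D) ∈ W.gr (X.prod X) (2 * 1) :=
        W.cl_mem (ops.push_mem _ hD (by simp only [dim_prod]; omega))
      rw [W.gr_eq_bot _ _ (by rw [dim_prod]; omega)] at h1
      rw [(Submodule.mem_bot _).1 h1, cl_divPow, map_zero, map_zero]
    obtain ⟨z, hz, hzf⟩ := exists_of_rop (p := X.dim - 1) (d := -1) (by omega)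
      (hOA.smul (-1 / 2) hfR)
    refine ⟨z, hz, ?_⟩
    rw [← sub_eq_zero]
    apply corr_inj
    rw [corr_sub', corr_boxDiff_two hD _ rfl, ad_two t hzf, W.cl_push, sub_eq_zero]
    apply LinearMap.ext
    intro a
    rw [corr_diag, LinearMap.mulLeft_apply]
  tfae_have 4 → 1 := by
    rintro ⟨z, hz, hzD⟩
    by_cases hn : X.dim = 0
    · exact lefschetzB_of_lower hD hHL t (hn0 hn)
    apply lefschetzB_of_lower hD hHL t
    have hzR := rop_corr (W := W) (p := X.dim - 1) (d := -1) (by omega) hz
    have h1 : W.corr (W.cl _ (ops.push (diag X) D)) = LinearMap.mulLeft W.K (W.cl X D) := by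
      apply LinearMap.ext
      intro a
      rw [W.cl_push, corr_diag, LinearMap.mulLeft_apply]
    have h2 := corr_boxDiff_two (W := W) hD z rfl
    rw [hzD, h1] at h2
    rw [of_ad_two h hLh W_hbd hHL t hf (by simpa using hOA.hom hzR) h2.symm]
    exact hOA.smul _ hzR
  tfae_finish

end Pool.Agent.H447
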