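import Pool.Agent.H90.G.S8.H914R2.DDefs

/-!
# The standard conjecture D in one codimension
-/

open CategoryTheory AlgebraicGeometry

universe u v

namespace Pool.Agent.H447

open Pool.Agent.H914 VarClass Obj WeilCohomology

variable {k : Type u} [Field k] {𝒱 : VarClass k} {ops : CycleOps 𝒱}

/-- The standard conjecture D for cycles of codimension `q` on `Y`: a cycle of codimension `q` on
`Y` all of whose intersection numbers with cycles of codimension `dim Y - q` vanish is
homologically equivalent to zero. -/
def HomEqNumIn (W : WeilCohomology.{u, v} ops) (Y : 𝒱.Obj) (q : ℕ) : Prop :=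
  ∀ z, Y.IsCyc q z → (∀ w, Y.IsCyc (Y.dim - q) w → Y.V.degCycle (ops.mul z w) = 0) →
    W.cl Y z = 0

end Pool.Agent.H447
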