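import Pool.Agent.H90.G.S8.H447R3.DegA
import Pool.Agent.H90.G.S8.H447R3.DegDefs
import Pool.Agent.H90.G.S8.H447R3.NumB

/-!
# The conjecture D for the square of a variety
-/

open CategoryTheory AlgebraicGeometry Finset

universe u v

namespace Pool.Agent.H447

open Pool.Agent.H914 VarClass Obj WeilCohomology

variable {k : Type u} [Field k] {𝒱 : VarClass k} {ops : CycleOps 𝒱}
  {W : WeilCohomology.{u, v} ops} {X Y : 𝒱.Obj}

/-- Coefficients of a sum of vectors with coefficients in an extension of `ℚ`. -/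
lemma sum_smul_eq_zero {K : Type*} [Field K] [CharZero K] {V : Type*} [AddCommGroup V]
    [Module K V] {m : ℕ} (c : Fin m → K) (x : Fin m → V)
    (h : ∀ ret : K →ₗ[ℚ] ℚ, ∑ i, ((ret (c i) : ℚ) : K) • x i = 0) : ∑ i, c i • x i = 0 := by
  classical
  set b := Module.Basis.ofVectorSpace ℚ K with hb
  set s : Finset _ := Finset.univ.biUnion (fun i => (b.repr (c i)).support) with hs
  have hc : ∀ i, c i = ∑ j ∈ s, ((b.repr (c i) j : ℚ) : K) * b j := by
    intro i
    have h1 := b.linearCombination_repr (c i)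
    rw [Finsupp.linearCombination_apply, Finsupp.sum] at h1
    have h2 : ∑ j ∈ (b.repr (c i)).support, ((b.repr (c i) j : ℚ) : K) * b j =
        ∑ j ∈ s, ((b.repr (c i) j : ℚ) : K) * b j := by
      apply Finset.sum_subset
      · intro j hj
        rw [hs, Finset.mem_biUnion]
        exact ⟨i, Finset.mem_univ _, hj⟩
      · intro j _ hj
        rw [Finsupp.notMem_support_iff] at hj
        rw [hj, Rat.cast_zero, zero_mul]
    rw [← h2]
    conv_lhs => rw [← h1]
    apply Finset.sum_congr rfl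
    intro j _
    rw [Algebra.smul_def]; rfl
  have h2 : ∑ i, c i • x i = ∑ j ∈ s, b j • ∑ i, ((b.repr (c i) j : ℚ) : K) • x i := by
    conv_lhs => 
      enter [2, i]
      rw [hc i, Finset.sum_smul]
    rw [Finset.sum_comm]
    apply Finset.sum_congr rfl
    intro j _
    rw [Finset.smul_sum]
    apply Finset.sum_congr rfl
    intro i _
    rw [smul_smul, mul_comm]
  rw [h2]
  apply Finset.sum_eq_zero
  intro j _
  have := h (b.coord j)
  simp only [Module.Basis.coord_apply] at this
  rw [this, smul_zero]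

/-- The conjecture D with coefficients. -/
lemma HomEqNumIn.span {q p : ℕ} (hpq : q + p = Y.dim) (h : HomEqNumIn W Y q) {γ : W.H Y}
    (hγ : γ ∈ spanCycles W Y q) (horth : ∀ w, Y.IsCyc p w → W.tr Y (W.cl Y w * γ) = 0) :
    γ = 0 := by
  have hrep : ∃ (m : ℕ) (c : Fin m → W.K) (z : Fin m → Y.Cycles), (∀ i, Y.IsCyc q (z i)) ∧
      γ = ∑ i, c i • W.cl Y (z i) := by
    rw [spanCycles, Submodule.mem_span_set'] at hγ
    obtain ⟨m, c, g, hg⟩ := hγ
    choose p' hp' z hz hz' using fun i => (g i).2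
    refine ⟨m, c, z, fun i => ?_, ?_⟩
    · have : p' i = q := by exact_mod_cast hp' i
      rw [← this]; exact hz i
    · rw [← hg]
      exact Finset.sum_congr rfl (fun i _ => by rw [hz' i])
  obtain ⟨m, c, z, hz, rfl⟩ := hrep
  refine sum_smul_eq_zero (K := W.K) (V := W.H Y) c (fun i => W.cl Y (z i)) ?_
  intro ret
  set u : Y.Cycles := ∑ i, ret (c i) • z i with hu
  have hucyc : Y.IsCyc q u := by
    rw [hu]
    refine Finset.sum_induction _ (fun u => Y.IsCyc q u) (fun a b => SmVar.IsCyc.add)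
      (SmVar.IsCyc.zero _ _) (fun i _ => (hz i).smul _)
  have hcl : W.cl Y u = ∑ i, ((ret (c i) : ℚ) : W.K) • W.cl Y (z i) := by
    rw [hu, map_sum]
    exact Finset.sum_congr rfl (fun i _ => cl_smul W _ _)
  rw [← hcl]
  apply h u hucyc
  intro w hw
  obtain rfl : Y.dim - q = p := by omega
  have h1 := tr_mul_cl (W := W) hucyc hw hpq
  have h2 : W.tr Y (W.cl Y u * W.cl Y w) =
      ((ret (W.tr Y (W.cl Y w * ∑ i, c i • W.cl Y (z i))) : ℚ) : W.K) := by
    rw [W.even_comm (W.cl_mem hucyc), hcl, Finset.mul_sum, Finset.mul_sum, map_sum, map_sum,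
      map_sum]
    push_cast
    apply Finset.sum_congr rfl
    intro i _
    rw [mul_smul_comm, mul_smul_comm, map_smul, map_smul, tr_mul_cl hw (hz i) (by omega),
      smul_eq_mul, smul_eq_mul, ret_mul]
    push_cast; rfl
  rw [h1, horth w hw, map_zero, Rat.cast_zero] at h2
  exact_mod_cast h2

/-- Numerical triviality on `X × X` in terms of super traces. -/
lemma str_eq_deg {p q : ℕ} (hpq : p + q = 2 * X.dim) {z w : (X.prod X).Cycles}
    (hz : (X.prod X).IsCyc p z) (hw : (X.prod X).IsCyc q w) :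
    LinearMap.trace W.K (W.H X) (par (W.isInternal X) * (W.corr (W.cl _ z) * W.corr (W.cl _ w))) =
      ((X.prod X).V.degCycle (ops.mul z (ops.pull (swap X X) w)) : W.K) := by
  rw [← tr_mul_cl hz (ops.pull_mem (swap X X) hw) (by rw [dim_prod]; omega),
    tr_mul_eq_trace (W.cl_mem hz), W.cl_pull, map_swap_swap, mul_assoc]

/-- The conjecture D in codimension `n + 1` on `X × X` implies the conjecture B for `X`. -/
theorem lefschetzB_of_homEqNumIn {D : X.Cycles} (hD : X.IsCyc 1 D) (hHL : HardLefschetz W X D)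
    (h : HomEqNumIn W (X.prod X) (X.dim + 1)) : LefschetzB W X D := by
  apply lefschetzB_of_inj hD hHL
  have hLh : IsHom (W.gr X) 2 (LinearMap.mulLeft W.K (W.cl X D)) := by
    simpa using rop_opAlg.hom (rop_mulLeft (W := W) hD)
  obtain ⟨f, t, hf, -⟩ := exists_sl2 (W.isInternal X) hLh W_hbd hHL
  -- powers of `f` are injective
  have hinj : ∀ c ≤ X.dim, ∀ a ∈ W.gr X (X.dim + c), (f ^ c) a = 0 → a = 0 := by
    intro c _ a ha h0
    apply f_pow_inj t _ h0
    rw [wt, scal_apply _ _ ha]
    congr 1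
    rw [node]
    push_cast; ring
  by_cases hn : X.dim = 0
  · intro c hc
    obtain rfl : c = 0 := by omega
    refine ⟨LinearMap.id, ?_, fun a _ h0 => by simpa using h0⟩
    have := KOp.id (W := W) X
    simpa using this
  have hfR : f ∈ KS (ROp W X) (-1) := by
    obtain ⟨τ, hτ⟩ := exists_corr f
    have hτm : τ ∈ W.gr (X.prod X) (2 * (X.dim - 1)) := by
      apply mem_gr_of_isHom
      rw [hτ]
      rwa [show (2 * (((X.dim - 1 : ℕ) : ℤ) - X.dim)) = -2 by omega]
    obtain ⟨γ, hγ, hγ'⟩ := exists_rep_of_orth (bil W (X.prod X))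
      (spanCycles W (X.prod X) ((X.dim - 1 : ℕ) : ℤ))
      (spanCycles W (X.prod X) ((X.dim + 1 : ℕ) : ℤ))
      (W.tr (X.prod X) ∘ₗ LinearMap.mulLeft W.K τ) (by
        intro δ hδ h0
        have : δ = 0 := h.span (p := X.dim - 1) (by rw [dim_prod]; omega) hδ
          (fun w hw => h0 _ (mem_span_cl hw))
        rw [this, map_zero])
    have hγR : W.corr γ ∈ KS (ROp W X) (-1) := by
      rw [mem_KS_iff, mem_KOp_iff]
      refine ⟨γ, ?_, rfl⟩
      rwa [show (X.dim : ℤ) + -1 = ((X.dim - 1 : ℕ) : ℤ) by omega]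
    have key := lower_mem rop_opAlg.kspan (W.isInternal X) W_hbd
      (Submodule.subset_span (rop_mulLeft (W := W) hD)) hHL t hf hγR (by
        intro u hu
        rw [mem_KS_iff, mem_KOp_iff] at hu
        obtain ⟨δ, hδ, rfl⟩ := hu
        have hδ' : δ ∈ spanCycles W (X.prod X) ((X.dim + 1 : ℕ) : ℤ) := by
          rwa [show ((X.dim + 1 : ℕ) : ℤ) = (X.dim : ℤ) + 1 by push_cast; rfl]
        have e1 := hγ' _ (swap_span hδ')
        rw [bil_apply, LinearMap.comp_apply, LinearMap.mulLeft_apply,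
          tr_mul_eq_trace (span_gr hγ), tr_mul_eq_trace hτm, map_swap_swap, mul_assoc,
          mul_assoc, hτ] at e1
        exact e1) (by
        intro u hu h0
        rw [mem_KS_iff, mem_KOp_iff] at hu
        obtain ⟨δ, hδ, rfl⟩ := hu
        have hδ' : δ ∈ spanCycles W (X.prod X) ((X.dim + 1 : ℕ) : ℤ) := by
          rwa [show ((X.dim + 1 : ℕ) : ℤ) = (X.dim : ℤ) + 1 by push_cast; rfl]
        have : δ = 0 := by
          apply h.span (p := X.dim - 1) (by rw [dim_prod]; omega) hδ'
          intro w hw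
          have h2 := h0 (W.corr (W.cl _ (ops.pull (swap X X) w))) (by
            rw [mem_KS_iff]
            exact KOp.gen (p := X.dim - 1) (by omega) (ops.pull_mem _ hw))
          rw [W.cl_pull, ← mul_assoc, ← tr_mul_eq_trace (span_gr hδ')] at h2
          rw [W.even_comm (W.cl_mem hw)]
          exact h2
        rw [this, corr_zero])
    rw [← key]
    exact hγR
  intro c hc
  refine ⟨f ^ c, ?_, hinj c hc⟩
  rw [← mem_KS_iff]
  exact rop_opAlg.kspan.cast (rop_opAlg.kspan.pow hfR c) (by ring)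

/-- The conjectures B for `X` and D in codimension `n` on `X × X` imply D for `X × X`. -/
theorem homEqNumIn_of_lefschetzB {D : X.Cycles} (hD : X.IsCyc 1 D) (hHL : HardLefschetz W X D)
    (hB : LefschetzB W X D) (h : HomEqNumIn W (X.prod X) X.dim) (q : ℕ)
    (hq : q ≤ 2 * X.dim) : HomEqNumIn W (X.prod X) q := by
  obtain ⟨Φ, hΦ, hLam⟩ := lefschetzB_iff_rop.1 hB
  intro z hz hnum
  rw [dim_prod] at hnum
  have key := eq_zero_of_num rop_opAlg (W.isInternal X) W_hbd (rop_mulLeft hD) hHL hΦ hLam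
    (u := W.corr (W.cl _ z)) (d := (q : ℤ) - X.dim) (by
      intro u hu h0
      obtain ⟨Y, ⟨r, hr, w, hw, hY⟩ | ⟨hd, -⟩, rfl⟩ := hu
      · obtain rfl : r = X.dim := by omega
        rw [hY] at h0 ⊢
        have : W.cl _ w = 0 := by
          apply h w hw
          intro w' hw'
          rw [dim_prod, show X.dim + X.dim - X.dim = X.dim by omega] at hw'
          have h2 := h0 (W.corr (W.cl _ (ops.pull (swap X X) w')))
            ⟨fun W => W.corr (W.cl _ (ops.pull (swap X X) w')), Or.inl ⟨X.dim, by omega,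
              ops.pull (swap X X) w', ops.pull_mem _ hw', fun _ => rfl⟩, rfl⟩
          rw [← mul_assoc, W.cl_pull, ← tr_mul_eq_trace (W.cl_mem hw),
            tr_mul_cl hw hw' (by rw [dim_prod])] at h2
          exact_mod_cast h2
        rw [this, corr_zero]
      · omega)
    ⟨fun W => W.corr (W.cl _ z), Or.inl ⟨q, by omega, z, hz, fun _ => rfl⟩, rfl⟩ (by
      rintro y ⟨Y, ⟨r, hr, w, hw, hY⟩ | ⟨hd, -⟩, rfl⟩
      · obtain rfl : r = X.dim + X.dim - q := by omega
        rw [hY, str_eq_deg (by omega) hz hw, hnum _ (ops.pull_mem _ hw), Rat.cast_zero]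
      · omega)
  exact corr_inj key

/-- **D for the square of a variety in two codimensions.** -/
theorem d_tfae {D : X.Cycles} (hD : X.IsCyc 1 D) (hHL : HardLefschetz W X D) :
    List.TFAE [HomEqNum W (X.prod X),
      HomEqNumIn W (X.prod X) X.dim ∧ HomEqNumIn W (X.prod X) (X.dim + 1),
      HomEqNumIn W (X.prod X) X.dim ∧ LefschetzB W X D] := by
  tfae_have 1 → 2 := by
    intro h
    refine ⟨h X.dim (by rw [dim_prod]; omega), ?_⟩
    by_cases hn : X.dim = 0
    · intro z hz _
      have := W.cl_mem hz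
      rw [W.gr_eq_bot _ _ (by rw [dim_prod]; omega)] at this
      exact (Submodule.mem_bot _).1 this
    · exact h (X.dim + 1) (by rw [dim_prod]; omega)
  tfae_have 2 → 3 := fun h => ⟨h.1, lefschetzB_of_homEqNumIn hD hHL h.2⟩
  tfae_have 3 → 1 := by
    rintro ⟨h, hB⟩ q hq
    exact homEqNumIn_of_lefschetzB hD hHL hB h q (by rw [dim_prod] at hq; omega)
  tfae_finish

end Pool.Agent.H447
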